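import Pool.Agent.H3.RG.Part
import Pool.Agent.H93.RG.Ring

/-!
# RG: the world (blocks of the flow and partitions of the rests)
-/

set_option autoImplicit false
set_option linter.unusedSectionVars false

namespace Pool.Agent.H3.RG

open Finset Pool.Agent.H93.RG
open Pool.Agent.H67.FG (ind Alg)

section Pm

variable {V : Type} [Fintype V] [DecidableEq V] {r : ℕ}

open scoped Classical in
/-- a partition of `T`, if there is one -/
noncomputable def pmr (r : ℕ) (T : Finset V) : Finset (Finset V) :=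
  if h : ∃ M : Finset (Finset V), IsM r M ∧ cov M = T then h.choose else ∅

theorem isM_pmr (T : Finset V) : IsM r (pmr r T) := by
  unfold pmr
  by_cases h : ∃ M : Finset (Finset V), IsM r M ∧ cov M = T
  · rw [dif_pos h]
    exact h.choose_spec.1
  · rw [dif_neg h]
    exact isM_empty

theorem cov_pmr_sub (T : Finset V) : cov (pmr r T) ⊆ T := by
  unfold pmr
  by_cases h : ∃ M : Finset (Finset V), IsM r M ∧ cov M = T
  · rw [dif_pos h]
    exact h.choose_spec.2.subset
  · rw [dif_neg h]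
    intro v hv
    obtain ⟨e, he, _⟩ := mem_cov.1 hv
    exact absurd he (Finset.notMem_empty _)

theorem cov_pmr (hr : 1 ≤ r) (T : Finset V) (hd : r ∣ T.card) : cov (pmr r T) = T := by
  have h := part_dvd hr T hd
  unfold pmr
  rw [dif_pos h]
  exact h.choose_spec.2

theorem mem_of_pmr {T e : Finset V} {v : V} (he : e ∈ pmr r T) (hv : v ∈ e) : v ∈ T :=
  cov_pmr_sub T (mem_cov.2 ⟨e, he, hv⟩)

end Pm

section World

variable {r q c : ℕ}

/-- the edge of a pair -/
def edg (x : {x : Fin q × Fin q // x.1 ≠ x.2}) : Ed q := ⟨s(x.1.1, x.1.2), fun h => x.2 (Sym2.mk_isDiag_iff.1 h)⟩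

/-- the opposite pair -/
def opp (x : {x : Fin q × Fin q // x.1 ≠ x.2}) : {x : Fin q × Fin q // x.1 ≠ x.2} := ⟨(x.1.2, x.1.1), fun h => x.2 h.symm⟩

theorem edg_opp (x : {x : Fin q × Fin q // x.1 ≠ x.2}) : edg (opp x) = edg x :=
  Subtype.ext (Sym2.eq_swap)

theorem opp_ne (x : {x : Fin q × Fin q // x.1 ≠ x.2}) : opp x ≠ x := by
  intro h
  have h1 := congrArg (fun z : {x : Fin q × Fin q // x.1 ≠ x.2} => z.1.1) h
  exact x.2 h1.symm

theorem edg_eq {x x' : {x : Fin q × Fin q // x.1 ≠ x.2}} : edg x' = edg x ↔ x' = x ∨ x' = opp x := by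
  constructor
  · intro h
    have h1 : s(x'.1.1, x'.1.2) = s(x.1.1, x.1.2) := congrArg Subtype.val h
    rcases Sym2.eq_iff.1 h1 with ⟨h2, h3⟩ | ⟨h2, h3⟩
    · exact Or.inl (Subtype.ext (Prod.ext h2 h3))
    · exact Or.inr (Subtype.ext (Prod.ext h2 h3))
  · rintro (h | h)
    · rw [h]
    · rw [h, edg_opp]

theorem edg_surj (e : Ed q) : ∃ x : {x : Fin q × Fin q // x.1 ≠ x.2}, edg x = e := by
  obtain ⟨e, he⟩ := e
  induction e with
  | h a b => exact ⟨⟨(a, b), fun h => he (Sym2.mk_isDiag_iff.2 h)⟩, rfl⟩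

theorem flow_edg (y : Ed q → ZMod r) (x : {x : Fin q × Fin q // x.1 ≠ x.2}) :
    flow y x.1.1 x.1.2 = if x.1.1 < x.1.2 then y (edg x) else - y (edg x) := by
  unfold flow
  rw [dif_neg (fun h => x.2 (Sym2.mk_isDiag_iff.1 h))]
  rfl

theorem flow_ne {y : Ed q → ZMod r} {x : {x : Fin q × Fin q // x.1 ≠ x.2}} :
    flow y x.1.1 x.1.2 ≠ 0 ↔ y (edg x) ≠ 0 := by
  rw [flow_edg]
  split_ifs
  · exact Iff.rfl
  · rw [neg_ne_zero]

theorem flow_congr {y y' : Ed q → ZMod r} {x : {x : Fin q × Fin q // x.1 ≠ x.2}} (h : y (edg x) = y' (edg x)) :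
    flow y x.1.1 x.1.2 = flow y' x.1.1 x.1.2 := by
  rw [flow_edg, flow_edg, h]

open scoped Classical in
/-- the block of an edge -/
noncomputable def blk (y : Ed q → ZMod r) (e : Ed q) : Finset (Pt r q c) :=
  univ.filter fun p => usd y p ∧ ∃ x, p = Sum.inl x ∧ edg x.1 = e

theorem mem_blk {y : Ed q → ZMod r} {e : Ed q} {p : Pt r q c} :
    p ∈ blk y e ↔ usd y p ∧ ∃ x, p = Sum.inl x ∧ edg x.1 = e := by
  classical
  unfold blk
  simp only [Finset.mem_filter, Finset.mem_univ, true_and]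

theorem mem_blk_inl {y : Ed q → ZMod r} {e : Ed q} {x : {x : Fin q × Fin q // x.1 ≠ x.2} × Fin (r - 1)} :
    (Sum.inl x : Pt r q c) ∈ blk y e ↔ (x.2 : ℕ) < (flow y x.1.1.1 x.1.1.2).val ∧ edg x.1 = e := by
  rw [mem_blk]
  constructor
  · rintro ⟨h1, x', h2, h3⟩
    rw [← Sum.inl.inj h2] at h3
    exact ⟨h1, h3⟩
  · rintro ⟨h1, h2⟩
    exact ⟨h1, x, rfl, h2⟩

theorem card_lt (n k : ℕ) (hk : k ≤ n) : (univ.filter fun j : Fin n => (j : ℕ) < k).card = k := by
  rw [Fin.card_filter_val_lt]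
  omega

/-- the blocks of the flow have `r` points -/
theorem card_blk (hr : 2 ≤ r) (y : Ed q → ZMod r) (e : Ed q) (he : y e ≠ 0) :
    (blk y e : Finset (Pt r q c)).card = r := by
  classical
  have : NeZero r := ⟨by omega⟩
  obtain ⟨x, rfl⟩ := edg_surj e
  have h1 : (blk y (edg x) : Finset (Pt r q c)).card =
      ∑ x' : {x : Fin q × Fin q // x.1 ≠ x.2}, if edg x' = edg x then (flow y x'.1.1 x'.1.2).val else 0 := by
    have h2 : (blk y (edg x) : Finset (Pt r q c)) = (univ.filter fun p => p ∈ (blk y (edg x) : Finset (Pt r q c))) := by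
      ext p
      simp
    rw [h2, Finset.card_filter, Fintype.sum_sum_type, Fintype.sum_prod_type]
    have h3 : ∑ j : Fin c, (if (Sum.inr j : Pt r q c) ∈ (blk y (edg x) : Finset (Pt r q c)) then 1 else 0) = 0 := by
      refine Finset.sum_eq_zero fun j _ => ?_
      rw [if_neg]
      intro h
      obtain ⟨_, x', h4, _⟩ := mem_blk.1 h
      exact absurd h4 (by simp)
    rw [h3, add_zero]
    refine Finset.sum_congr rfl fun x' _ => ?_
    by_cases hx : edg x' = edg x
    · rw [if_pos hx]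
      have hv : (flow y x'.1.1 x'.1.2).val ≤ r - 1 := by
        have := ZMod.val_lt (flow y x'.1.1 x'.1.2)
        omega
      rw [← card_lt (r - 1) _ hv, Finset.card_filter]
      refine Finset.sum_congr rfl fun j _ => ?_
      simp only [mem_blk_inl, hx, and_true]
    · rw [if_neg hx]
      refine Finset.sum_eq_zero fun j _ => ?_
      simp only [mem_blk_inl, hx, and_false, if_false]
  have h2 : (univ.filter fun x' : {x : Fin q × Fin q // x.1 ≠ x.2} => edg x' = edg x) = {x, opp x} := by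
    ext x'
    simp only [Finset.mem_filter, Finset.mem_univ, true_and, Finset.mem_insert, Finset.mem_singleton]
    exact edg_eq
  rw [h1, ← Finset.sum_filter, h2, Finset.sum_pair (opp_ne x).symm]
  have h3 : flow y (opp x).1.1 (opp x).1.2 = - flow y x.1.1 x.1.2 := flow_neg y x.1.1 x.1.2
  have h4 : flow y x.1.1 x.1.2 ≠ 0 := flow_ne.2 he
  rw [h3, ZMod.neg_val, if_neg h4]
  have := ZMod.val_lt (flow y x.1.1 x.1.2)
  omega

open scoped Classical in
/-- the partial partition -/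
noncomputable def Mr (y : Ed q → ZMod r) : Finset (Finset (Pt r q c)) :=
  univ.filter fun B => (∃ e, y e ≠ 0 ∧ B = blk y e) ∨ ∃ a, B ∈ pmr r (rest y a)

theorem mem_Mr {y : Ed q → ZMod r} {B : Finset (Pt r q c)} :
    B ∈ Mr y ↔ (∃ e, y e ≠ 0 ∧ B = blk y e) ∨ ∃ a, B ∈ pmr r (rest y a) := by
  classical
  unfold Mr
  simp only [Finset.mem_filter, Finset.mem_univ, true_and]

theorem grp_inj {a a' : Fin q} {p : Pt r q c} (h : grp a p) (h' : grp a' p) : a = a' := by
  rcases p with x | j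
  · exact (show x.1.1.1 = a from h).symm.trans h'
  · exact Fin.ext ((show (a : ℕ) = 0 from h).trans (show (a' : ℕ) = 0 from h').symm)

/-- the block at a point -/
theorem at_point {y : Ed q → ZMod r} {B : Finset (Pt r q c)} (hB : B ∈ Mr y) {p : Pt r q c} (hp : p ∈ B) :
    (usd y p ∧ ∃ x, p = Sum.inl x ∧ y (edg x.1) ≠ 0 ∧ B = blk y (edg x.1)) ∨
      (¬ usd y p ∧ ∃ a, grp a p ∧ B ∈ pmr r (rest y a)) := by
  rcases mem_Mr.1 hB with ⟨e, he, rfl⟩ | ⟨a, ha⟩
  · obtain ⟨h1, x, h2, h3⟩ := mem_blk.1 hp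
    refine Or.inl ⟨h1, x, h2, ?_, ?_⟩
    · rw [h3]
      exact he
    · rw [h3]
  · have h1 := mem_rest.1 (mem_of_pmr ha hp)
    exact Or.inr ⟨h1.2, a, h1.1, ha⟩

theorem isM_Mr (hr : 2 ≤ r) (y : Ed q → ZMod r) : IsM r (Mr y : Finset (Finset (Pt r q c))) := by
  refine ⟨fun B hB => ?_, fun B hB B' hB' p hp hp' => ?_⟩
  · rcases mem_Mr.1 hB with ⟨e, he, rfl⟩ | ⟨a, ha⟩
    · exact card_blk hr y e he
    · exact (isM_pmr _).1 B ha
  · rcases at_point hB hp with ⟨h1, x, h2, _, h4⟩ | ⟨h1, a, h2, h3⟩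
    · rcases at_point hB' hp' with ⟨_, x', h2', _, h4'⟩ | ⟨h1', _⟩
      · have h5 := Sum.inl.inj (h2.symm.trans h2')
        rw [h4, h4', h5]
      · exact absurd h1 h1'
    · rcases at_point hB' hp' with ⟨h1', _⟩ | ⟨_, a', h2', h3'⟩
      · exact absurd h1' h1
      · have h5 := grp_inj h2 h2'
        rw [← h5] at h3'
        exact (isM_pmr _).2 B h3 B' h3' p hp hp'

theorem mem_atv {a : Fin q} {e : Ed q} : e ∈ atv a ↔ a ∈ e.1 := by
  unfold atv
  rw [mem_filter]
  exact ⟨fun h => h.2, fun h => ⟨mem_univ _, h⟩⟩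

theorem edg_mem_atv (x : {x : Fin q × Fin q // x.1 ≠ x.2}) : edg x ∈ atv x.1.1 := mem_atv.2 (Sym2.mem_mk_left _ _)

theorem card_atv (v : Fin q) : (atv v).card = q - 1 := by
  have h1 : (univ.filter fun u : Fin q => u ≠ v).card = q - 1 := by
    rw [filter_ne', card_erase_of_mem (mem_univ _), card_univ, Fintype.card_fin]
  rw [← h1]
  symm
  refine card_bij (fun u hu => (⟨s(v, u), fun h => (mem_filter.1 hu).2 (Sym2.mk_isDiag_iff.1 h).symm⟩ : Ed q)) ?_ ?_ ?_
  · intro u hu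
    exact mem_atv.2 (Sym2.mem_mk_left v u)
  · intro u hu u' hu' h
    have h2 : s(v, u) = s(v, u') := congrArg Subtype.val h
    exact Sym2.congr_right.1 h2
  · intro e he
    obtain ⟨u, hu⟩ := Sym2.mem_iff_exists.1 (mem_atv.1 he)
    have hne : u ≠ v := by
      intro h
      apply e.2
      rw [hu, h, Sym2.mk_isDiag_iff]
    exact ⟨u, mem_filter.2 ⟨mem_univ _, hne⟩, Subtype.ext hu.symm⟩

theorem usd_congr {y y' : Ed q → ZMod r} {a : Fin q} (h : ∀ e ∈ atv a, y e = y' e) {p : Pt r q c} (hp : grp a p) :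
    usd y p ↔ usd y' p := by
  rcases p with x | j
  · have h1 : x.1.1.1 = a := hp
    have h2 : y (edg x.1) = y' (edg x.1) := h _ (by rw [← h1]; exact edg_mem_atv x.1)
    show (x.2 : ℕ) < (flow y x.1.1.1 x.1.1.2).val ↔ (x.2 : ℕ) < (flow y' x.1.1.1 x.1.1.2).val
    rw [flow_congr h2]
  · exact Iff.rfl

theorem rest_congr {y y' : Ed q → ZMod r} {a : Fin q} (h : ∀ e ∈ atv a, y e = y' e) :
    (rest y a : Finset (Pt r q c)) = rest y' a := by
  ext p
  rw [mem_rest, mem_rest]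
  exact and_congr_right fun hp => not_congr (usd_congr h hp)

theorem blk_congr {y y' : Ed q → ZMod r} {e : Ed q} (h : y e = y' e) :
    (blk y e : Finset (Pt r q c)) = blk y' e := by
  ext p
  rw [mem_blk, mem_blk]
  refine and_congr_left ?_
  rintro ⟨x, rfl, hx⟩
  have h2 : y (edg x.1) = y' (edg x.1) := by rw [hx]; exact h
  show (x.2 : ℕ) < (flow y x.1.1.1 x.1.1.2).val ↔ (x.2 : ℕ) < (flow y' x.1.1.1 x.1.1.2).val
  rw [flow_congr h2]

theorem Vio_congr {y y' : Ed q → ZMod r} {a : Fin q} (h : ∀ e ∈ atv a, y e = y' e) : Vio c a y ↔ Vio c a y' := by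
  unfold Vio
  have h1 : ∑ b, flow y a b = ∑ b, flow y' a b := by
    refine Finset.sum_congr rfl fun b _ => ?_
    by_cases hb : a = b
    · rw [← hb, flow_self, flow_self]
    · exact flow_congr (x := ⟨(a, b), hb⟩) (h _ (edg_mem_atv ⟨(a, b), hb⟩))
  rw [h1]

variable [NeZero q]

/-- the group of a point -/
def gv : Pt r q c → Fin q
  | Sum.inl x => x.1.1.1
  | Sum.inr _ => 0

theorem grp_gv (p : Pt r q c) : grp (gv p) p := by
  rcases p with x | j
  · exact rfl
  · show ((0 : Fin q) : ℕ) = 0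
    exact Fin.val_zero q

/-- the variables which matter for the blocks of the points of `A` -/
def EA (A : Finset (Pt r q c)) : Finset (Ed q) := A.biUnion fun p => atv (gv p)

theorem card_EA (A : Finset (Pt r q c)) : (EA A).card ≤ A.card * (q - 1) :=
  card_biUnion_le_card_mul _ _ _ fun _ _ => le_of_eq (card_atv _)

/-- locality, one direction -/
theorem loc_one {y y' : Ed q → ZMod r} {p : Pt r q c} (h : ∀ e ∈ atv (gv p), y e = y' e)
    {B : Finset (Pt r q c)} (hB : B ∈ Mr y) (hp : p ∈ B) : B ∈ Mr y' := by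
  rcases at_point hB hp with ⟨_, x, rfl, hx2, hx3⟩ | ⟨_, a, h1, h2⟩
  · have h3 : y (edg x.1) = y' (edg x.1) := h _ (edg_mem_atv x.1)
    refine mem_Mr.2 (Or.inl ⟨edg x.1, ?_, ?_⟩)
    · rw [← h3]
      exact hx2
    · rw [hx3]
      exact blk_congr h3
  · have h3 := grp_inj h1 (grp_gv p)
    rw [h3] at h2
    refine mem_Mr.2 (Or.inr ⟨gv p, ?_⟩)
    rw [← rest_congr h]
    exact h2

theorem mem_tch {A : Finset (Pt r q c)} {M : Finset (Finset (Pt r q c))} {e : Finset (Pt r q c)} :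
    e ∈ tch A M ↔ e ∈ M ∧ ∃ v ∈ A, v ∈ e := by
  classical
  unfold tch
  rw [mem_filter]

/-- locality -/
theorem tch_congr {y y' : Ed q → ZMod r} {A : Finset (Pt r q c)} (h : ∀ e ∈ EA A, y e = y' e) :
    tch A (Mr y) = tch A (Mr y') := by
  have h1 : ∀ a ∈ A, ∀ e ∈ atv (gv a), y e = y' e := fun a ha e he => h e (mem_biUnion.2 ⟨a, ha, he⟩)
  ext e
  rw [mem_tch, mem_tch]
  constructor
  · rintro ⟨he, a, ha, hae⟩
    exact ⟨loc_one (h1 a ha) he hae, a, ha, hae⟩
  · rintro ⟨he, a, ha, hae⟩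
    exact ⟨loc_one (fun e he => (h1 a ha e he).symm) he hae, a, ha, hae⟩

theorem cov_tch {A : Finset (Pt r q c)} {M : Finset (Finset (Pt r q c))} : A ⊆ cov M ↔ A ⊆ cov (tch A M) := by
  constructor
  · intro h a ha
    obtain ⟨e, he, hae⟩ := mem_cov.1 (h ha)
    exact mem_cov.2 ⟨e, mem_tch.2 ⟨he, a, ha, hae⟩, hae⟩
  · intro h a ha
    obtain ⟨e, he, hae⟩ := mem_cov.1 (h ha)
    exact mem_cov.2 ⟨e, (mem_tch.1 he).1, hae⟩

/-- an uncovered point: the flow at its group is wrong -/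
theorem uncov (hr : 2 ≤ r) (hq1 : q % r = 1) {y : Ed q → ZMod r} {p : Pt r q c} (h : p ∉ cov (Mr y)) :
    Vio c (gv p) y := by
  by_contra hV
  apply h
  have hd := (dvd_rest hr (Nat.one_le_iff_ne_zero.2 (NeZero.ne q)) hq1 y (gv p) (c := c)).2 hV
  by_cases hf : usd y p
  · rcases p with x | j
    · have h1 : (x.2 : ℕ) < (flow y x.1.1.1 x.1.1.2).val := hf
      have h2 : flow y x.1.1.1 x.1.1.2 ≠ 0 := by
        intro h3
        rw [h3, ZMod.val_zero] at h1
        omega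
      exact mem_cov.2 ⟨blk y (edg x.1), mem_Mr.2 (Or.inl ⟨edg x.1, flow_ne.1 h2, rfl⟩), mem_blk_inl.2 ⟨h1, rfl⟩⟩
    · exact absurd hf id
  · have h1 : p ∈ cov (pmr r (rest y (gv p))) := by
      rw [cov_pmr (by omega) _ hd]
      exact mem_rest.2 ⟨grp_gv p, hf⟩
    obtain ⟨e, he, hpe⟩ := mem_cov.1 h1
    exact mem_cov.2 ⟨e, mem_Mr.2 (Or.inr ⟨_, he⟩), hpe⟩

end World

/-- the world -/
theorem world_exists (p : ℕ) [Fact p.Prime] (r : ℕ) (hr : 2 ≤ r) (hpr : ¬ p ∣ r) (q K c : ℕ) (hq : 3 < q)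
    (hq1 : q % r = 1) (hK : 9 * K < q ^ 2) (hqK : q - 1 ≤ K) :
    ∃ 𝓦 : MW r (ZMod p) (Ed q → ZMod r) (Pt r q c), 𝓦.c = q - 1 ∧ 𝓦.K = K := by
  classical
  have : NeZero q := ⟨by omega⟩
  obtain ⟨𝓐, hAK, hdeg0, hviol⟩ := alg_exists p r hr hpr q K c hq hK hqK
  have hdeg : ∀ (E : Finset (Ed q)) (P : (Ed q → ZMod r) → Prop), (∀ y y', (∀ e ∈ E, y e = y' e) → (P y ↔ P y')) →
      ind P ∈ 𝓐.Deg E.card := by
    intro E P h
    refine hdeg0 E _ fun y y' hy => ?_
    unfold Pool.Agent.H67.FG.ind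
    by_cases h1 : P y
    · rw [if_pos h1, if_pos ((h y y' hy).1 h1)]
    · rw [if_neg h1, if_neg (fun h2 => h1 ((h y y' hy).2 h2))]
  have hdv : ∀ v : Fin q, ind (fun y : Ed q → ZMod r => Vio c v y) ∈ 𝓐.Deg (q - 1) := by
    intro v
    have h1 := hdeg (atv v) (fun y => Vio c v y) (fun y y' h => Vio_congr h)
    rw [card_atv] at h1
    exact h1
  have hdA : ∀ (A : Finset (Pt r q c)) (P : (Ed q → ZMod r) → Prop), (∀ y y', (∀ e ∈ EA A, y e = y' e) → (P y ↔ P y')) →
      ind P ∈ 𝓐.Deg (A.card * (q - 1)) := fun A P h => 𝓐.mono (card_EA A) (hdeg _ _ h)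
  refine ⟨{ toAlg := 𝓐, M := Mr, c := q - 1, isM := isM_Mr hr, loc := ?_, stk := ?_ }, rfl, hAK⟩
  · intro A δ
    exact hdA A _ fun y y' h => by rw [tch_congr h]
  · intro A
    induction A using Finset.induction_on with
    | empty =>
      intro _
      have h1 : ind (k := ZMod p) (fun y : Ed q → ZMod r => ¬ (∅ : Finset (Pt r q c)) ⊆ cov (Mr y)) = 0 := by
        funext y
        unfold Pool.Agent.H67.FG.ind
        rw [if_neg (fun h => h (empty_subset _))]
        rfl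
      rw [h1]
      exact Submodule.zero_mem _
    | insert a A ha ih =>
      intro hK
      rw [card_insert_of_notMem ha] at hK
      have hK1 : 2 * (A.card * (q - 1)) + (q - 1) ≤ 𝓐.K := by
        have h1 : A.card * (q - 1) ≤ (A.card + 1) * (q - 1) := Nat.mul_le_mul_right _ (Nat.le_succ _)
        omega
      have h0 := ih hK1
      have hf : ind (k := ZMod p) (fun y : Ed q → ZMod r => A ⊆ cov (Mr y) ∧ a ∉ cov (Mr y)) ∈
          𝓐.Deg ((insert a A).card * (q - 1)) := by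
        refine hdA (insert a A) _ fun y y' h => ?_
        have h1 : A ⊆ cov (Mr y) ↔ A ⊆ cov (Mr y') := by
          rw [cov_tch, cov_tch (M := Mr y'), tch_congr fun e he => h e (biUnion_subset_biUnion_of_subset_left _
            (subset_insert _ _) he)]
        have h2 : ({a} : Finset (Pt r q c)) ⊆ cov (Mr y) ↔ ({a} : Finset (Pt r q c)) ⊆ cov (Mr y') := by
          rw [cov_tch, cov_tch (M := Mr y'), tch_congr fun e he => h e (biUnion_subset_biUnion_of_subset_left _
            (singleton_subset_iff.2 (mem_insert_self _ _)) he)]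
        rw [singleton_subset_iff, singleton_subset_iff] at h2
        rw [h1, h2]
      rw [card_insert_of_notMem ha] at hf
      have h3 : ind (k := ZMod p) (fun y : Ed q → ZMod r => ¬ insert a A ⊆ cov (Mr y)) =
          ind (fun y => ¬ A ⊆ cov (Mr y)) + ind (fun y => A ⊆ cov (Mr y) ∧ a ∉ cov (Mr y)) *
            ind (fun y => Vio c (gv a) y) := by
        funext y
        rw [Pi.add_apply, Pi.mul_apply]
        unfold Pool.Agent.H67.FG.ind
        by_cases h1 : A ⊆ cov (Mr y)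
        · by_cases h2 : a ∈ cov (Mr y)
          · rw [if_neg (fun h => h (insert_subset h2 h1)), if_neg (fun h => h h1), if_neg (fun h => h.2 h2)]
            ring
          · rw [if_pos (fun h => h2 (h (mem_insert_self _ _))), if_neg (fun h => h h1), if_pos ⟨h1, h2⟩,
              if_pos (uncov hr hq1 h2)]
            ring
        · rw [if_pos (fun h => h1 ((subset_insert _ _).trans h)), if_pos h1, if_neg (fun h => h1 h.1)]
          ring
      rw [h3]
      refine Submodule.add_mem _ h0 (𝓐.zmul ?_ hf (hdv _) (hviol _))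
      have h4 : 2 * ((A.card + 1) * (q - 1)) + (q - 1) ≤ 𝓐.K := hK
      omega

end Pool.Agent.H3.RG
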