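import Pool.Agent.H93.RG.Mat
import Pool.Agent.H93.RG.Flow

/-!
# RG: partitions into blocks; the number of the points of a group which are left
-/

set_option autoImplicit false
set_option linter.unusedSectionVars false

namespace Pool.Agent.H3.RG

open Finset Pool.Agent.H93.RG

theorem part_exists {V : Type} [Fintype V] [DecidableEq V] {r : ℕ} (hr : 1 ≤ r) (n : ℕ) :
    ∀ T : Finset V, T.card = r * n → ∃ M : Finset (Finset V), IsM r M ∧ cov M = T := by
  induction n with
  | zero =>
    intro T hT
    have h1 : T = ∅ := Finset.card_eq_zero.1 (by rw [hT, Nat.mul_zero])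
    refine ⟨∅, isM_empty, ?_⟩
    rw [h1]
    ext v
    simp [mem_cov]
  | succ n ih =>
    intro T hT
    obtain ⟨e, he1, he2⟩ := Finset.exists_subset_card_eq (s := T) (n := r) (by rw [hT, Nat.mul_succ]; omega)
    have h1 : (T \ e).card = r * n := by
      rw [Finset.card_sdiff_of_subset he1, hT, he2, Nat.mul_succ]
      omega
    obtain ⟨M, hM, hc⟩ := ih _ h1
    have hd : Disjoint e (cov M) := by
      rw [hc]
      exact Finset.disjoint_sdiff
    refine ⟨insert e M, (isM_insert hr hM he2 hd).1, ?_⟩
    ext v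
    rw [mem_cov]
    have hc' : v ∈ cov M ↔ v ∈ T \ e := by rw [hc]
    rw [mem_cov, Finset.mem_sdiff] at hc'
    constructor
    · rintro ⟨f, hf, hv⟩
      rcases Finset.mem_insert.1 hf with rfl | hf
      · exact he1 hv
      · exact (hc'.1 ⟨f, hf, hv⟩).1
    · intro hv
      by_cases h2 : v ∈ e
      · exact ⟨e, Finset.mem_insert_self _ _, h2⟩
      · obtain ⟨f, hf, hv⟩ := hc'.2 ⟨hv, h2⟩
        exact ⟨f, Finset.mem_insert_of_mem hf, hv⟩

theorem part_dvd {V : Type} [Fintype V] [DecidableEq V] {r : ℕ} (hr : 1 ≤ r) (T : Finset V)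
    (h : r ∣ T.card) : ∃ M : Finset (Finset V), IsM r M ∧ cov M = T := by
  obtain ⟨n, hn⟩ := h
  exact part_exists hr n T hn

section Rest

variable {r q c : ℕ}

/-- the point is in the group `a` -/
def grp (a : Fin q) : Pt r q c → Prop
  | Sum.inl x => x.1.1.1 = a
  | Sum.inr _ => (a : ℕ) = 0

/-- the point is used by a block of the flow -/
def usd (y : Ed q → ZMod r) : Pt r q c → Prop
  | Sum.inl x => (x.2 : ℕ) < (flow y x.1.1.1 x.1.1.2).val
  | Sum.inr _ => False

open scoped Classical in
/-- the points of the group `a` which are not used -/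
noncomputable def rest (y : Ed q → ZMod r) (a : Fin q) : Finset (Pt r q c) :=
  univ.filter fun x => grp a x ∧ ¬ usd y x

theorem mem_rest {y : Ed q → ZMod r} {a : Fin q} {x : Pt r q c} : x ∈ rest y a ↔ grp a x ∧ ¬ usd y x := by
  classical
  unfold rest
  simp only [Finset.mem_filter, Finset.mem_univ, true_and]

theorem flow_self (y : Ed q → ZMod r) (a : Fin q) : flow y a a = 0 := by
  unfold flow
  rw [dif_pos (by simp)]

theorem flow_neg (y : Ed q → ZMod r) (a b : Fin q) : flow y b a = - flow y a b := by
  unfold flow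
  by_cases h : s(a, b).IsDiag
  · have h' : s(b, a).IsDiag := by rwa [Sym2.eq_swap]
    rw [dif_pos h, dif_pos h', neg_zero]
  · have h' : ¬ s(b, a).IsDiag := by rwa [Sym2.eq_swap]
    rw [dif_neg h, dif_neg h']
    have he : (⟨s(b, a), h'⟩ : Ed q) = ⟨s(a, b), h⟩ := Subtype.ext Sym2.eq_swap
    rw [he]
    have hab : a ≠ b := fun hab => h (by rw [hab]; simp)
    rcases lt_or_gt_of_ne hab with hl | hl
    · rw [if_pos hl, if_neg (not_lt.2 hl.le)]
    · rw [if_neg (not_lt.2 hl.le), if_pos hl, neg_neg]

theorem card_ge (n k : ℕ) (hk : k ≤ n) : (univ.filter fun j : Fin n => ¬ (j : ℕ) < k).card = n - k := by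
  have h1 : (univ.filter fun j : Fin n => ¬ (j : ℕ) < k).card + (univ.filter fun j : Fin n => (j : ℕ) < k).card
      = n := by
    have h2 := Finset.card_filter_add_card_filter_not (s := (univ : Finset (Fin n))) (fun j : Fin n => (j : ℕ) < k)
    rw [Finset.card_univ, Fintype.card_fin] at h2
    omega
  have h3 : (univ.filter fun j : Fin n => (j : ℕ) < k).card = k := by
    rw [Fin.card_filter_val_lt]
    omega
  omega

/-- the number of points which are left, modulo `r` -/
theorem card_rest (hr : 2 ≤ r) (_hq : 1 ≤ q) (hq1 : q % r = 1) (y : Ed q → ZMod r) (a : Fin q) :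
    (((rest y a : Finset (Pt r q c)).card : ℕ) : ZMod r) = ch r c a - ∑ b, flow y a b := by
  classical
  have : NeZero r := ⟨by omega⟩
  have hcard : (rest y a : Finset (Pt r q c)).card =
      (∑ x : {x : Fin q × Fin q // x.1 ≠ x.2}, if x.1.1 = a then (r - 1 - (flow y x.1.1 x.1.2).val) else 0) +
        if (a : ℕ) = 0 then c else 0 := by
    unfold rest
    rw [Finset.card_filter, Fintype.sum_sum_type, Fintype.sum_prod_type]
    congr 1
    · refine Finset.sum_congr rfl fun x _ => ?_
      by_cases hx : x.1.1 = a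
      · rw [if_pos hx]
        have hv : (flow y x.1.1 x.1.2).val ≤ r - 1 := by
          have := ZMod.val_lt (flow y x.1.1 x.1.2)
          omega
        rw [← card_ge (r - 1) _ hv, Finset.card_filter]
        refine Finset.sum_congr rfl fun j _ => ?_
        simp only [grp, usd, hx, true_and]
      · rw [if_neg hx]
        refine Finset.sum_eq_zero fun j _ => ?_
        simp only [grp, hx, false_and, if_false]
    · simp only [grp, usd, not_false_eq_true, and_true]
      by_cases ha : (a : ℕ) = 0
      · simp [ha]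
      · simp [ha]
  rw [hcard]
  push_cast
  have h1 : (∑ x : {x : Fin q × Fin q // x.1 ≠ x.2},
      (if x.1.1 = a then (((r - 1 - (flow y x.1.1 x.1.2).val : ℕ)) : ZMod r) else 0)) =
      ∑ b, (if a ≠ b then (-1 - flow y a b) else 0) := by
    have h2 := Finset.sum_subtype (F := inferInstance) (univ.filter fun x : Fin q × Fin q => x.1 ≠ x.2)
      (p := fun x => x.1 ≠ x.2) (fun x => by simp)
      (fun x => if x.1 = a then (((r - 1 - (flow y x.1 x.2).val : ℕ)) : ZMod r) else 0)
    rw [← h2, Finset.sum_filter, Fintype.sum_prod_type, Finset.sum_eq_single a]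
    · refine Finset.sum_congr rfl fun b _ => ?_
      by_cases hb : a ≠ b
      · rw [if_pos hb, if_pos hb, if_pos rfl]
        have hv : (flow y a b).val < r := ZMod.val_lt _
        have h3 : ((r - 1 - (flow y a b).val : ℕ) : ZMod r) + 1 + ((flow y a b).val : ZMod r) = 0 := by
          have h4 : r - 1 - (flow y a b).val + 1 + (flow y a b).val = r := by omega
          have h5 := congrArg (fun n : ℕ => (n : ZMod r)) h4
          simp only [Nat.cast_add, Nat.cast_one, ZMod.natCast_self] at h5
          exact h5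
        rw [ZMod.natCast_zmod_val] at h3
        linear_combination h3
      · rw [if_neg hb, if_neg hb]
    · intro b _ hb
      refine Finset.sum_eq_zero fun d _ => ?_
      rw [if_neg hb]
      simp
    · simp
  have h5 : (∑ b, (if a ≠ b then (-1 - flow y a b) else 0)) = - ∑ b, flow y a b := by
    have h6 : ∀ b, (if a ≠ b then (-1 - flow y a b) else 0) = (-1 - flow y a b) + (if a = b then 1 else 0) := by
      intro b
      by_cases hb : a = b
      · rw [if_neg (not_not.2 hb), if_pos hb, ← hb, flow_self]
        ring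
      · rw [if_pos hb, if_neg hb, add_zero]
    rw [Finset.sum_congr rfl fun b _ => h6 b, Finset.sum_add_distrib, Finset.sum_sub_distrib,
      Finset.sum_ite_eq, if_pos (Finset.mem_univ _), Finset.sum_const, Finset.card_univ, Fintype.card_fin]
    have h7 : ((q : ℕ) : ZMod r) = 1 := by
      have h8 : ((q : ℕ) : ZMod r) = ((q % r : ℕ) : ZMod r) := (ZMod.natCast_mod q r).symm
      rw [h8, hq1, Nat.cast_one]
    rw [nsmul_eq_mul, h7]
    ring
  rw [h1, h5]
  unfold ch
  by_cases ha : (a : ℕ) = 0
  · simp only [if_pos ha]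
    ring
  · simp only [if_neg ha]
    ring

theorem dvd_rest (hr : 2 ≤ r) (hq : 1 ≤ q) (hq1 : q % r = 1) (y : Ed q → ZMod r) (a : Fin q) :
    r ∣ (rest y a : Finset (Pt r q c)).card ↔ ¬ Vio c a y := by
  rw [← ZMod.natCast_eq_zero_iff, card_rest hr hq hq1, sub_eq_zero]
  unfold Vio
  rw [not_not]
  exact eq_comm

theorem card_Pt (r q c : ℕ) : Fintype.card (Pt r q c) = q * (q - 1) * (r - 1) + c := by
  have h : Fintype.card {x : Fin q × Fin q // x.1 ≠ x.2} = q * (q - 1) := by
    have h1 : Fintype.card {x : Fin q × Fin q // x.1 ≠ x.2} = (univ : Finset (Fin q)).offDiag.card := by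
      rw [Fintype.card_subtype]
      congr 1
      ext x
      simp [Finset.mem_offDiag]
    rw [h1, Finset.offDiag_card, Finset.card_univ, Fintype.card_fin, Nat.mul_sub, Nat.mul_one]
  rw [Fintype.card_sum, Fintype.card_prod, h, Fintype.card_fin, Fintype.card_fin]

end Rest

end Pool.Agent.H3.RG
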